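import Pool.Agent.Q59.FF.Main

/-!
# The characters from degree 110 are generated by determinant characters of rank two
-/

namespace Pool.Agent.Q59.FF

open Finset Pool.Agent.Q59.MC Pool.Agent.H916R2 Pool.Agent.Y2.Cv Pool.Agent.Y2.Cw

lemma RS_eq : RS 11 1 = {1, 3, 4, 5, 9} := by
  ext a
  unfold RS
  rw [mem_filter, mem_range, sgn_eq h11]
  constructor
  · rintro ⟨h1, h2⟩
    interval_cases a <;> revert h2 <;> decide
  · intro h
    simp only [mem_insert, mem_singleton] at h
    rcases h with rfl | rfl | rfl | rfl | rfl <;> decide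

/-- the character of rank two of degree 110 -/
def S110 (j : ℕ) : List ℕ :=
  [11 * j + 10, 11 * j + 30, 11 * j + 40, 11 * j + 50, 11 * j + 90] ++
    [110 - 11 * j, 110 - 11 * j + 22, 110 - 11 * j + 44, 110 - 11 * j + 66, 110 - 11 * j + 88] ++
    [55, 55]

lemma hodge_S' : ∀ j ∈ [1, 3, 7, 9], hodgeL 110 ((S110 j).map (· % 110)) = true := by
  decide +kernel

lemma ms_mod (L : List ℕ) : ms 110 (L.map (· % 110)) = ms 110 L := by
  unfold ms
  rw [List.map_map]
  congr 1
  refine List.map_congr_left fun n _ => ?_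
  simp

lemma hodge_S (j : ℕ) (hj : j ∈ [1, 3, 7, 9]) : IsHodge 110 (ms 110 (S110 j)) := by
  rw [← ms_mod]
  exact hodgeL_sound (hodge_S' j hj)

/-- the pairs -/
def Q110 : List ℕ := [11, 99, 33, 77, 55, 55]

lemma cases110 : ∀ t < 110, Nat.Coprime t 110 → ∃ j ∈ [1, 3, 7, 9],
    ms 110 (e110.map (t * ·)) + ms 110 Q110 = ms 110 (S110 j) ∨
    ms 110 (e110.map (t * ·)) + ms 110 Q110 = (ms 110 (S110 j)).map Neg.neg := by
  decide +kernel

section Lift

variable {m l : ℕ} [NeZero m]

lemma rank_S (h : l * 110 = m) (j : ℕ) (hj : j ∈ [1, 3, 7, 9]) :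
    RankTwo m ((ms 110 (S110 j)).map (iota l)) := by
  have hH : IsHodge m ((ms 110 (S110 j)).map (iota l)) :=
    IsHodge.iota h (hodge_S j hj)
  have hj9 : j ≤ 9 := by
    simp only [List.mem_cons, List.not_mem_nil, or_false] at hj
    omega
  have e11 : m / 11 = l * 10 := by omega
  have e5 : m / 5 = l * 22 := by omega
  have e2 : m / 2 = l * 55 := by omega
  set c : ZMod m := ((l * (11 * j) : ℕ) : ZMod m) with hc
  have key : (ms 110 (S110 j)).map (iota l) = t1 m c + t2 m c + hh m := by
    have h1 : (ms 110 (S110 j)).map (iota l : ZMod 110 → ZMod m) =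
        (((S110 j).map fun n : ℕ => ((l * n : ℕ) : ZMod m) : List _) : Multiset (ZMod m)) := by
      unfold ms
      rw [Multiset.map_coe, List.map_map]
      congr 1
      refine List.map_congr_left fun n _ => ?_
      simp only [Function.comp_apply]
      exact iota_natCast h n
    have h2 : t1 m c = (([11 * j + 10, 11 * j + 30, 11 * j + 40, 11 * j + 50, 11 * j + 90].map
        fun n : ℕ => ((l * n : ℕ) : ZMod m) : List _) : Multiset (ZMod m)) := by
      unfold t1 PE
      rw [RS_eq, Multiset.map_map, e11]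
      have e : (({1, 3, 4, 5, 9} : Finset ℕ).val) = (([1, 3, 4, 5, 9] : List ℕ) : Multiset ℕ) := rfl
      rw [e, Multiset.map_coe]
      congr 1
      simp only [List.map_cons, List.map_nil, Function.comp_apply]
      rw [hc]
      simp only [← Nat.cast_add]
      congr 2 <;> ring_nf
    have h3 : t2 m c = (([110 - 11 * j, 110 - 11 * j + 22, 110 - 11 * j + 44, 110 - 11 * j + 66,
        110 - 11 * j + 88].map fun n : ℕ => ((l * n : ℕ) : ZMod m) : List _) :
          Multiset (ZMod m)) := by
      have e : Multiset.range 5 = (([0, 1, 2, 3, 4] : List ℕ) : Multiset ℕ) := rfl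
      have e' : -c = ((l * (110 - 11 * j) : ℕ) : ZMod m) := by
        rw [neg_eq_iff_add_eq_zero, hc, ← Nat.cast_add, ← Nat.mul_add,
          Nat.add_sub_cancel' (by omega), h, ZMod.natCast_self]
      unfold t2
      rw [e, Multiset.map_coe, e', e5]
      congr 1
      simp only [List.map_cons, List.map_nil, ← Nat.cast_add, mul_assoc, ← Nat.mul_add]
      simp
    have h4 : hh m = (([55, 55].map fun n : ℕ => ((l * n : ℕ) : ZMod m) : List _) :
          Multiset (ZMod m)) := by
      unfold hh
      rw [e2, mul_one]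
      rfl
    rw [h1, h2, h3, h4, S110]
    simp only [List.map_append, ← Multiset.coe_add]
  rw [key] at hH ⊢
  exact rankTwo_main ⟨l * 55, by omega⟩ ⟨l * 22, by omega⟩ ⟨l * 10, by omega⟩ c hH

/-- the characters from degree 110 are generated by determinant characters of rank two -/
theorem generated_of_from {P : Multiset (ZMod m) → Prop} (hP : ∀ u, RankTwo m u → P u)
    {s : Multiset (ZMod m)} (h : FromDegree110 m s) : Generated m P s := by
  obtain ⟨l, t, hl, ht, rfl⟩ := h
  have hl0 : l ≠ 0 := by
    rintro rfl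
    rw [zero_mul] at hl
    exact NeZero.ne m hl.symm
  obtain ⟨j, hj, hor⟩ := cases110 (t % 110) (Nat.mod_lt _ (by norm_num)) (by
    exact ((Nat.mod_modEq t 110).gcd_eq).trans ht)
  have e1 : Multiset.map (fun a : ℕ => ((l * (t * a) : ℕ) : ZMod m)) {1, 31, 55, 71, 81, 91} =
      (ms 110 (e110.map (t % 110 * ·))).map (iota l : ZMod 110 → ZMod m) := by
    have e : ({1, 31, 55, 71, 81, 91} : Multiset ℕ) = ((e110 : List ℕ) : Multiset ℕ) := rfl
    unfold ms
    rw [e, Multiset.map_coe, Multiset.map_coe, List.map_map, List.map_map]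
    congr 1
    refine List.map_congr_left fun n _ => ?_
    simp only [Function.comp_apply]
    rw [iota_natCast hl, ZMod.natCast_eq_natCast_iff', ← hl, Nat.mul_mod_mul_left,
      Nat.mul_mod_mul_left, Nat.mod_mul_mod]
  have hneg : ∀ b : ZMod 110, (iota l (-b) : ZMod m) = - iota l b := fun b => iota_neg hl b
  have e2 : (ms 110 Q110).map (iota l : ZMod 110 → ZMod m) =
      {iota l (11 : ZMod 110), -iota l (11 : ZMod 110)} +
      ({iota l (33 : ZMod 110), -iota l (33 : ZMod 110)} +
      {iota l (55 : ZMod 110), -iota l (55 : ZMod 110)}) := by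
    rw [← hneg, ← hneg, ← hneg]
    have e : ms 110 Q110 = {(11 : ZMod 110), -11} + ({(33 : ZMod 110), -33} +
        {(55 : ZMod 110), -55}) := by decide +kernel
    rw [e, Multiset.map_add, Multiset.map_add]
    rfl
  have h3 : Generated m P ((ms 110 (e110.map (t % 110 * ·))).map (iota l : ZMod 110 → ZMod m) +
      (ms 110 Q110).map (iota l : ZMod 110 → ZMod m)) := by
    rw [← Multiset.map_add]
    rcases hor with h | h
    · rw [h]
      exact Generated.ofBase _ (hP _ (rank_S hl j hj))
    · rw [h]
      have e : ((ms 110 (S110 j)).map Neg.neg).map (iota l : ZMod 110 → ZMod m) =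
          ((ms 110 (S110 j)).map (iota l : ZMod 110 → ZMod m)).map Neg.neg := by
        rw [Multiset.map_map, Multiset.map_map]
        exact Multiset.map_congr rfl fun b _ => hneg b
      rw [e]
      exact Generated.ofBase _ (hP _ (rankTwo_neg (rank_S hl j hj)))
  rw [← e1, e2] at h3
  set u := Multiset.map (fun a : ℕ => ((l * (t * a) : ℕ) : ZMod m)) {1, 31, 55, 71, 81, 91} with hu
  have h4 : ∀ (a : ZMod m) (v : Multiset (ZMod m)), Generated m P (v + {a, -a}) →
      Generated m P v := by
    intro a v hv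
    apply Generated.cancel a v
    have e : v + {a, -a} = a ::ₘ -a ::ₘ v := by
      rw [add_comm, Multiset.insert_eq_cons, Multiset.cons_add, Multiset.singleton_add]
    rwa [e] at hv
  apply h4 (iota l (11 : ZMod 110))
  apply h4 (iota l (33 : ZMod 110))
  apply h4 (iota l (55 : ZMod 110))
  rwa [add_assoc, add_assoc]

end Lift

end Pool.Agent.Q59.FF
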