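import Pool.Agent.Q59.FF.Deg

/-!
# Hodge characters with at most six entries
-/

namespace Pool.Agent.Q59.FF

open Pool.Agent.Q59.MC Pool.Agent.H916R2 Pool.Agent.Y2.Cv Pool.Agent.Y2.Cw

/-- replacing the generators by generated characters -/
lemma gen_bind {m : ℕ} {b b' : Multiset (ZMod m) → Prop} (h : ∀ t, b t → Generated m b' t)
    {s : Multiset (ZMod m)} (hs : Generated m b s) : Generated m b' s := by
  induction hs with
  | ofBase s hs => exact h s hs
  | pair a ha => exact Generated.pair a ha
  | standard p hp hp2 hpm a ha => exact Generated.standard p hp hp2 hpm a ha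
  | standardTwo hm a ha => exact Generated.standardTwo hm a ha
  | join s t _ _ ih1 ih2 => exact Generated.join s t ih1 ih2
  | cancel a s _ ih => exact Generated.cancel a s ih

/-- **Even degrees, at most six entries.** -/
theorem main_even_six {m : ℕ} (hm : 0 < m) (he : Even m) {s : Multiset (ZMod m)}
    (hs : IsHodge m s) (hne : s ≠ 0) (hcard : Multiset.card s ≤ 6) :
    Generated m (fun u => SurfaceOrCurveProduct m u ∨ (110 ∣ m ∧ RankTwo m u)) s := by
  have : NeZero m := ⟨hm.ne'⟩
  refine gen_bind ?_ (main_even4 hm.ne' (Nat.even_iff.mp he) s hs hcard hne)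
  rintro t (ht | ht)
  · exact Generated.ofBase t (Or.inl ht)
  · refine generated_of_from (fun u hu => Or.inr ⟨?_, hu⟩) ht
    obtain ⟨l, _, hl, _⟩ := ht
    exact ⟨l, by rw [← hl, mul_comm]⟩

end Pool.Agent.Q59.FF
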