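import Mathlib

/-!
# Two characteristic polynomials
-/

namespace Pool.Agent.Q59.FF

open Finset Matrix Polynomial

section Inv

variable {ι : Type} [Fintype ι] [DecidableEq ι]

lemma root_sq {M : Matrix ι ι ℂ} (hM : M * M = 1) {r : ℂ} (hr : r ∈ M.charpoly.roots) :
    r = 1 ∨ r = -1 := by
  have h0 : M.charpoly.eval r = 0 := (mem_roots (M.charpoly_monic.ne_zero)).mp hr
  rw [Matrix.eval_charpoly] at h0
  have h1 : (scalar ι r - M) * (scalar ι r + M) = scalar ι (r * r - 1) := by
    have hc : M * scalar ι r = scalar ι r * M := ((scalar_commute r (fun s => Commute.all r s) M).eq).symm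
    rw [sub_mul, mul_add, mul_add, hM, hc, map_sub, map_mul, map_one]
    abel
  have h2 := congrArg Matrix.det h1
  rw [Matrix.det_mul, h0, zero_mul, Matrix.scalar_apply, Matrix.det_diagonal, prod_const] at h2
  have h3 : r * r - 1 = 0 := by
    by_contra hne
    exact pow_ne_zero _ hne h2.symm
  have h4 : (r - 1) * (r + 1) = 0 := by linear_combination h3
  rcases mul_eq_zero.mp h4 with h | h
  · left; linear_combination h
  · right; linear_combination h

lemma signs (R : Multiset ℂ) (h : ∀ r ∈ R, r = 1 ∨ r = -1) :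
    ∃ a b : ℕ, R = Multiset.replicate a 1 + Multiset.replicate b (-1) := by
  induction R using Multiset.induction_on with
  | empty => exact ⟨0, 0, by simp⟩
  | cons r R ih =>
    obtain ⟨a, b, hab⟩ := ih fun r hr => h r (Multiset.mem_cons_of_mem hr)
    rcases h r (Multiset.mem_cons_self r R) with rfl | rfl
    · exact ⟨a + 1, b, by rw [Multiset.replicate_succ, Multiset.cons_add, hab]⟩
    · exact ⟨a, b + 1, by rw [Multiset.replicate_succ, Multiset.add_cons, hab]⟩

/-- an involution of trace one in dimension five -/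
lemma charpoly_inv {M : Matrix ι ι ℂ} (hM : M * M = 1) (hd : Fintype.card ι = 5)
    (ht : M.trace = 1) :
    M.charpoly = (({1, 1, 1, -1, -1} : Multiset ℂ).map fun r => X - C r).prod := by
  have hs : M.charpoly.Splits := IsAlgClosed.splits _
  have h1 := hs.eq_prod_roots_of_monic M.charpoly_monic
  have h2 : Multiset.card M.charpoly.roots = 5 := by
    rw [← hs.natDegree_eq_card_roots, Matrix.charpoly_natDegree_eq_dim, hd]
  have h3 : M.charpoly.roots.sum = 1 := by
    rw [← Matrix.trace_eq_sum_roots_charpoly, ht]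
  obtain ⟨a, b, hab⟩ := signs M.charpoly.roots fun r hr => root_sq hM hr
  rw [hab, Multiset.card_add, Multiset.card_replicate, Multiset.card_replicate] at h2
  rw [hab, Multiset.sum_add, Multiset.sum_replicate, Multiset.sum_replicate] at h3
  have h4 : (a : ℂ) - b = 1 := by
    simp only [nsmul_eq_mul, mul_one, mul_neg] at h3
    linear_combination h3
  have h5 : (a : ℤ) - b = 1 := by exact_mod_cast h4
  have ha : a = 3 := by omega
  have hb : b = 2 := by omega
  rw [h1, hab, ha, hb]
  rfl

end Inv

section Cyc

/-- a scaled cyclic permutation matrix of size five -/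
def cyc (z : ℂ) : Matrix (Fin 5) (Fin 5) ℂ := Matrix.of fun i j => if j = i + 1 then z else 0

lemma charpoly_cyc (z : ℂ) : (cyc z).charpoly = X ^ 5 - C (z ^ 5) := by
  have h : (cyc z).charmatrix =
      !![X, -C z, 0, 0, 0; 0, X, -C z, 0, 0; 0, 0, X, -C z, 0; 0, 0, 0, X, -C z;
        -C z, 0, 0, 0, X] := by
    ext i j : 2
    rw [Matrix.charmatrix_apply]
    fin_cases i <;> fin_cases j <;> simp [cyc, Matrix.diagonal_apply]
  unfold Matrix.charpoly
  rw [h]
  simp only [Matrix.det_succ_row_zero, Fin.sum_univ_succ]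
  simp [Fin.succAbove, Matrix.det_fin_zero]
  ring

end Cyc

end Pool.Agent.Q59.FF
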