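import Pool.Agent.Q59.FF.Rank
import Pool.Agent.Y2.Cw.EvenH4
import Pool.Agent.Q59.MC.Gen

/-!
# The characters from degree 110 are determinant characters of rank two
-/

namespace Pool.Agent.Q59.FF

open Finset Matrix Polynomial MatrixGroups Pool.Agent.Q59.MC Pool.Agent.H916R2

section Main

variable {m : ℕ} [NeZero m]

lemma em_ne_one {a : ZMod m} (ha : a ≠ 0) : em m a ≠ 1 := by
  rw [em_eq]
  intro h
  apply ha
  have : (ZMod.stdAddChar a : ℂ) = ZMod.stdAddChar (0 : ZMod m) := by
    rw [h, AddChar.map_zero_eq_one]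
  exact ZMod.injective_stdAddChar this

/-- the two entries `1 / 2` -/
def hh (m : ℕ) : Multiset (ZMod m) := {((m / 2 * 1 : ℕ) : ZMod m), ((m / 2 * 1 : ℕ) : ZMod m)}

omit [NeZero m] in
lemma card_PE : Multiset.card (PE m 11 1) = 5 := by
  rw [← map_univ_Im h11, Multiset.card_map]
  exact card_Im

theorem rankTwo_main (h2 : 2 ∣ m) (h5 : 5 ∣ m) (h11' : 11 ∣ m) (c : ZMod m)
    (hH : IsHodge m (t1 m c + t2 m c + hh m)) : RankTwo m (t1 m c + t2 m c + hh m) := by
  classical
  have hz : ∀ a ∈ t1 m c + t2 m c + hh m, a ≠ 0 := by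
    rintro a ha rfl
    exact hH.1 ha
  refine ⟨hH, SL(2, ZMod 11) × Multiplicative (ZMod m), inferInstance, inferInstance, 5, 3,
    (Matrix.reindexAlgEquiv ℂ ℂ ee5.symm).toRingEquiv.toRingHom.toMonoidHom.comp (rho m),
    ![x1 m c, x2 m c, x3 m], ![t1 m c, t2 m c, t3 m], ?_, ?_, ?_, ?_, ?_⟩
  · rw [List.ofFn_succ, List.ofFn_succ, List.ofFn_succ, List.ofFn_zero, List.prod_cons,
      List.prod_cons, List.prod_cons, List.prod_nil]
    exact word_x m c
  · intro v hv
    have h := hv 0
    change Matrix.reindexAlgEquiv ℂ ℂ ee5.symm (rho m (x1 m c)) *ᵥ v = v at h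
    rw [Matrix.coe_reindexAlgEquiv, rho_x1 h11', Matrix.reindex_apply,
      Matrix.submatrix_diagonal_equiv] at h
    funext i
    have hi := congrFun h i
    rw [Matrix.mulVec_diagonal] at hi
    simp only [Function.comp_apply] at hi
    rw [Pi.zero_apply]
    by_contra hne
    have h1 := mul_right_cancel₀ hne (hi.trans (one_mul _).symm)
    refine em_ne_one (hz _ ?_) h1
    rw [Multiset.mem_add, Multiset.mem_add]
    left; left
    unfold t1
    rw [← map_univ_Im h11, Multiset.map_map]
    exact Multiset.mem_map_of_mem (fun a : Im 11 => c + ((m / 11 * ((a : ZMod 11) ^ 2).val : ℕ) : ZMod m))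
      (Finset.mem_univ (ee5.symm.symm i))
  · intro j
    change (Matrix.reindexAlgEquiv ℂ ℂ ee5.symm (rho m (![x1 m c, x2 m c, x3 m] j))).charpoly = _
    rw [Matrix.coe_reindexAlgEquiv, Matrix.charpoly_reindex]
    fin_cases j
    · exact charpoly_x1 h11' c
    · exact charpoly_x2 h5 c
    · exact charpoly_x3 h2
  · rw [Fin.sum_univ_three]
    change _ = Multiset.filter (fun a => a ≠ 0) (t1 m c + t2 m c + t3 m)
    have e : t3 m = 0 ::ₘ 0 ::ₘ 0 ::ₘ hh m := rfl
    rw [e, Multiset.filter_add, Multiset.filter_cons_of_neg _ (by simp),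
      Multiset.filter_cons_of_neg _ (by simp), Multiset.filter_cons_of_neg _ (by simp),
      ← Multiset.filter_add, Multiset.filter_eq_self.mpr hz]
  · rw [Multiset.card_add, Multiset.card_add]
    have e1 : Multiset.card (t1 m c) = 5 := by
      unfold t1
      rw [Multiset.card_map, card_PE]
    have e2 : Multiset.card (t2 m c) = 5 := by
      unfold t2
      rw [Multiset.card_map, Multiset.card_range]
    have e3 : Multiset.card (hh m) = 2 := rfl
    omega

/-- closure under negation -/
lemma rankTwo_neg {s : Multiset (ZMod m)} (h : RankTwo m s) : RankTwo m (s.map Neg.neg) := by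
  obtain ⟨h1, G, _, _, d, n, ρ, x, t, h2, h3, h4, h5, h6⟩ := h
  refine ⟨h1.neg, G, inferInstance, inferInstance, d, n,
    ((starRingEnd ℂ).mapMatrix : Matrix (Fin d) (Fin d) ℂ →+* Matrix (Fin d) (Fin d) ℂ).toMonoidHom.comp ρ,
    x, fun j => (t j).map Neg.neg, h2, ?_, ?_, ?_, ?_⟩
  · intro v hv
    have h7 : (fun i => (starRingEnd ℂ) (v i)) = 0 := by
      apply h3
      intro j
      have h8 := hv j
      change (starRingEnd ℂ).mapMatrix (ρ (x j)) *ᵥ v = v at h8
      funext i
      have h9 := congrArg (starRingEnd ℂ) (congrFun h8 i)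
      simp only [Matrix.mulVec, dotProduct] at h9 ⊢
      rw [map_sum] at h9
      rw [← h9]
      refine sum_congr rfl fun k _ => ?_
      rw [map_mul, RingHom.mapMatrix_apply, Matrix.map_apply, Complex.conj_conj]
    funext i
    have h8 := congrFun h7 i
    simp only [Pi.zero_apply] at h8
    exact (map_eq_zero (starRingEnd ℂ)).mp h8
  · intro j
    change ((starRingEnd ℂ).mapMatrix (ρ (x j))).charpoly = _
    rw [RingHom.mapMatrix_apply, Matrix.charpoly_map, h4, Polynomial.map_multiset_prod,
      Multiset.map_map, Multiset.map_map]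
    congr 1
    refine Multiset.map_congr rfl fun a _ => ?_
    have e1 : Complex.exp (2 * Real.pi * Complex.I * ((-a).val : ℂ) / m) =
        (starRingEnd ℂ) (Complex.exp (2 * Real.pi * Complex.I * (a.val : ℂ) / m)) := em_neg a
    simp only [Function.comp_apply, Polynomial.map_sub, Polynomial.map_X, Polynomial.map_C]
    rw [e1]
  · have e : ∑ j, (t j).map Neg.neg = (∑ j, t j).map Neg.neg := by
      rw [← Multiset.coe_mapAddMonoidHom, map_sum]
    rw [e, h5, Multiset.filter_map]
    congr 1
    refine Multiset.filter_congr fun a _ => ?_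
    simp
  · rw [Multiset.card_map]
    exact h6

end Main

end Pool.Agent.Q59.FF
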