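import Pool.Agent.Q59.FF.Rep
import Pool.Agent.Y2.Fin

/-!
# Determinant characters of rank two
-/

namespace Pool.Agent.Q59.FF

open Finset Matrix Polynomial MatrixGroups Pool.Agent.Q59.MC Pool.Agent.H916R2

/-- A determinant character of rank at most two: a Hodge character `s` of degree `m` for which there are a
representation `ρ` of a finite group `G` on `ℂ ^ d` and elements `x_1, ..., x_n` of `G` with product `1` and without a
common fixed vector, such that `s` is the union of the nonzero exponents of the `ρ (x_j)` and has at most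
`2 * d + 2` entries. -/
def RankTwo (m : ℕ) (s : Multiset (ZMod m)) : Prop :=
  IsHodge m s ∧ ∃ (G : Type) (_ : Group G) (_ : Finite G) (d n : ℕ)
    (ρ : G →* Matrix (Fin d) (Fin d) ℂ) (x : Fin n → G) (t : Fin n → Multiset (ZMod m)),
    (List.ofFn x).prod = 1 ∧ (∀ v : Fin d → ℂ, (∀ j, ρ (x j) *ᵥ v = v) → v = 0) ∧
    (∀ j, (ρ (x j)).charpoly =
      ((t j).map fun a => X - C (Complex.exp (2 * Real.pi * Complex.I * a.val / m))).prod) ∧
    s = (∑ j, t j).filter (fun a => a ≠ 0) ∧ Multiset.card s ≤ 2 * d + 2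

section Twist

variable (m : ℕ) [NeZero m]

/-- the representation with a twist -/
noncomputable def rho : SL(2, ZMod 11) × Multiplicative (ZMod m) →* Matrix (Im 11) (Im 11) ℂ where
  toFun g := em m g.2.toAdd • Km g.1
  map_one' := by
    change em m 0 • Km 1 = 1
    rw [em_zero, Km_one h11, one_smul]
  map_mul' x y := by
    change em m (x.2.toAdd + y.2.toAdd) • Km (x.1 * y.1) = _
    rw [em_add, Km_mul h11, smul_mul_smul_comm]

/-- the first element -/
def x1 (c : ZMod m) : SL(2, ZMod 11) × Multiplicative (ZMod m) := (gT, Multiplicative.ofAdd c)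
/-- the second element -/
def x2 (c : ZMod m) : SL(2, ZMod 11) × Multiplicative (ZMod m) :=
  (gP * gD * gP⁻¹, Multiplicative.ofAdd (-c))
/-- the third element -/
def x3 : SL(2, ZMod 11) × Multiplicative (ZMod m) := (gB, 1)

omit [NeZero m] in
lemma word_x (c : ZMod m) : x1 m c * (x2 m c * (x3 m * 1)) = 1 := by
  unfold x1 x2 x3
  rw [mul_one, ← mul_assoc, Prod.mk_mul_mk, Prod.mk_mul_mk, word, mul_one, ← ofAdd_add,
    add_neg_cancel, ofAdd_zero]
  rfl

/-- the first exponents -/
def t1 (c : ZMod m) : Multiset (ZMod m) := (PE m 11 1).map fun b => c + b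
/-- the second exponents -/
def t2 (c : ZMod m) : Multiset (ZMod m) :=
  (Multiset.range 5).map fun k => -c + (((m / 5) * k : ℕ) : ZMod m)
/-- the third exponents -/
def t3 : Multiset (ZMod m) := {0, 0, 0, ((m / 2 * 1 : ℕ) : ZMod m), ((m / 2 * 1 : ℕ) : ZMod m)}

variable {m}

lemma rho_x1 (h : 11 ∣ m) (c : ZMod m) : rho m (x1 m c) = diagonal (fun a : Im 11 =>
    em m (c + ((m / 11 * ((a : ZMod 11) ^ 2).val : ℕ) : ZMod m))) := by
  change em m c • Km gT = _
  rw [gT_eq, Km_T h11, ← Matrix.diagonal_smul]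
  congr 1
  funext a
  rw [em_add, em_val h]
  rfl

lemma charpoly_x1 (h : 11 ∣ m) (c : ZMod m) : (rho m (x1 m c)).charpoly =
    ((t1 m c).map fun a => X - C (Complex.exp (2 * Real.pi * Complex.I * a.val / m))).prod := by
  rw [rho_x1 h, Matrix.charpoly_diagonal]
  unfold t1
  rw [← map_univ_Im h11, Multiset.map_map, Multiset.map_map]
  rfl

lemma em_five (h : 5 ∣ m) : IsPrimitiveRoot (em m (((m / 5 : ℕ)) : ZMod m)) 5 := by
  have h1 := em_level h 1
  rw [mul_one] at h1
  rw [h1]
  have h2 := Complex.isPrimitiveRoot_exp 5 (by norm_num)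
  unfold MC.em
  have h3 : ((1 : ℕ) : ZMod 5).val = 1 := by decide
  rw [h3]
  simpa using h2

lemma charpoly_x2 (h : 5 ∣ m) (c : ZMod m) : (rho m (x2 m c)).charpoly =
    ((t2 m c).map fun a => X - C (Complex.exp (2 * Real.pi * Complex.I * a.val / m))).prod := by
  have e1 : (rho m (x2 m c)).charpoly = (em m (-c) • Km gD).charpoly := by
    have e2 : x2 m c = (gP, 1) * ((gD, Multiplicative.ofAdd (-c)) * (gP⁻¹, 1)) := by
      unfold x2
      rw [Prod.mk_mul_mk, Prod.mk_mul_mk, mul_one, one_mul, mul_assoc]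
    rw [e2, map_mul, Matrix.charpoly_mul_comm, ← map_mul]
    have e3 : ((gD, Multiplicative.ofAdd (-c)) * (gP⁻¹, 1)) * (gP, 1) =
        (gD, Multiplicative.ofAdd (-c)) := by
      rw [Prod.mk_mul_mk, Prod.mk_mul_mk, mul_one, mul_one, mul_assoc, inv_mul_cancel, mul_one]
    rw [e3]
    rfl
  rw [e1, charpoly_D]
  have h2 := X_pow_sub_C_eq_prod (em_five h) (α := em m (-c)) (a := em m (-c) ^ 5) (by norm_num) rfl
  rw [h2]
  have h3 : ∀ k : ℕ, em m (((m / 5 : ℕ)) : ZMod m) ^ k = em m ((m / 5 * k : ℕ) : ZMod m) := by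
    intro k
    induction k with
    | zero => rw [pow_zero, mul_zero, Nat.cast_zero, em_zero]
    | succ k ih => rw [pow_succ, ih, ← em_add, Nat.mul_succ, Nat.cast_add]
  have h4 : ∀ k : ℕ, X - C (em m (((m / 5 : ℕ)) : ZMod m) ^ k * em m (-c)) =
      X - C (em m (-c + ((m / 5 * k : ℕ) : ZMod m))) := by
    intro k
    rw [em_add, mul_comm, h3]
  have h5 : (t2 m c).map (fun a => X - C (Complex.exp (2 * Real.pi * Complex.I * a.val / m))) =
      (Multiset.range 5).map (fun k => X - C (em m (-c + ((m / 5 * k : ℕ) : ZMod m)))) := by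
    unfold t2
    rw [Multiset.map_map]
    rfl
  rw [h5, Finset.prod_eq_multiset_prod, Finset.range_val]
  congr 1
  exact Multiset.map_congr rfl fun k _ => h4 k

lemma em_two (h : 2 ∣ m) : em m (((m / 2 * 1 : ℕ)) : ZMod m) = -1 := by
  rw [em_level h 1]
  unfold MC.em
  have h3 : ((1 : ℕ) : ZMod 2).val = 1 := by decide
  rw [h3, ← Complex.exp_pi_mul_I]
  congr 1
  push_cast
  ring

lemma charpoly_x3 (h : 2 ∣ m) : (rho m (x3 m)).charpoly =
    ((t3 m).map fun a => X - C (Complex.exp (2 * Real.pi * Complex.I * a.val / m))).prod := by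
  have e1 : rho m (x3 m) = Km gB := by
    change em m 0 • Km gB = Km gB
    rw [em_zero, one_smul]
  have e2 : ((t3 m).map fun a => X - C (Complex.exp (2 * Real.pi * Complex.I * a.val / m))) =
      (({1, 1, 1, -1, -1} : Multiset ℂ).map fun r => X - C r) := by
    change ((t3 m).map fun a => X - C (em m a)) = _
    unfold t3
    simp only [Multiset.insert_eq_cons, Multiset.map_cons, Multiset.map_singleton, em_zero,
      em_two h]
  rw [e1, e2, charpoly_B]

end Twist

end Pool.Agent.Q59.FF
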