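import Pool.Agent.Q59.MC.Main
import Pool.Agent.Q59.FF.Inv

/-!
# The representation of degree five of `PSL_2(11)`
-/

namespace Pool.Agent.Q59.FF

open Finset Matrix Polynomial MatrixGroups Pool.Agent.Q59.MC

instance fact_eleven : Fact (Nat.Prime 11) := ⟨by norm_num⟩

section Elements

/-- the unipotent element -/
def gT : SL(2, ZMod 11) := ⟨!![1, 1; 0, 1], by decide⟩
/-- the element of order four -/
def gB : SL(2, ZMod 11) := ⟨!![0, -3; 4, 0], by decide⟩
/-- the diagonal element -/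
def gD : SL(2, ZMod 11) := ⟨!![8, 0; 0, 7], by decide⟩
/-- the matrix of eigenvectors -/
def gP : SL(2, ZMod 11) := ⟨!![3, -1; 4, -1], by decide⟩

lemma word : gT * (gP * gD * gP⁻¹) * gB = 1 := by decide

lemma gB_sq : gB * gB = -1 := by decide

lemma gT_eq : gT = SpecialLinearGroup.map (Int.castRingHom (ZMod 11)) ModularGroup.T := by
  ext i j
  rw [SpecialLinearGroup.map_apply_coe]
  fin_cases i <;> fin_cases j <;> simp [gT, ModularGroup.T]

end Elements

section Chars

lemma ch_apply (x : ZMod 11) : ch 11 x = ((quadraticChar (ZMod 11) x : ℤ) : ℂ) := rfl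

lemma ch4 : ch 11 4 = 1 := by
  rw [ch_apply, show quadraticChar (ZMod 11) 4 = 1 by decide]; norm_num

lemma ch5 : ch 11 5 = 1 := by
  rw [ch_apply, show quadraticChar (ZMod 11) 5 = 1 by decide]; norm_num

lemma ch6 : ch 11 6 = -1 := by
  rw [ch_apply, show quadraticChar (ZMod 11) 6 = -1 by decide]; norm_num

lemma ch8 : ch 11 8 = -1 := by
  rw [ch_apply, show quadraticChar (ZMod 11) 8 = -1 by decide]; norm_num

end Chars

section Diag

lemma h11 : 11 % 4 = 3 := rfl

lemma Km_gD (x y : Im 11) : Km gD x y = if (y : ZMod 11) = 3 * x then 1 else 0 := by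
  have e : ∀ a b : ZMod 11, KK gD a b = if b = 8 * a then -1 else 0 := by
    intro a b
    unfold KK kk
    have e00 : gD 0 0 = 8 := by simp [gD]
    have e01 : gD 0 1 = 0 := by simp [gD]
    have e10 : gD 1 0 = 0 := by simp [gD]
    rw [e10, if_pos rfl, e00, e01, mul_zero, zero_mul, AddChar.map_zero_eq_one, mul_one, ch8]
  have h1 : ¬ (y : ZMod 11) = 8 * x := by
    intro h
    have h2 := y.2
    rw [h, map_mul, x.2, show quadraticChar (ZMod 11) 8 = -1 by decide] at h2
    norm_num at h2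
  have h3 : (-(y : ZMod 11) = 8 * x) ↔ (y : ZMod 11) = 3 * x := by
    have h5 : (11 : ZMod 11) = 0 := by decide
    constructor
    · intro h
      linear_combination -h - (x : ZMod 11) * h5
    · intro h
      linear_combination -h - (x : ZMod 11) * h5
  unfold Km
  rw [Matrix.of_apply, e, e, if_neg h1]
  by_cases h : (y : ZMod 11) = 3 * x
  · rw [if_pos h, if_pos (h3.mpr h)]; norm_num
  · rw [if_neg h, if_neg (fun hh => h (h3.mp hh))]; norm_num

lemma qr_pow (i : Fin 5) : quadraticChar (ZMod 11) ((3 : ZMod 11) ^ (i : ℕ)) = 1 := by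
  revert i; decide

/-- the powers of three -/
def e5 (i : Fin 5) : Im 11 := ⟨(3 : ZMod 11) ^ (i : ℕ), qr_pow i⟩

lemma e5_bij : Function.Bijective e5 := by
  have h : ∀ x : ZMod 11, quadraticChar (ZMod 11) x = 1 → ∃ i : Fin 5, (3 : ZMod 11) ^ (i : ℕ) = x := by
    decide
  constructor
  · intro i j hij
    have h1 : (3 : ZMod 11) ^ (i : ℕ) = (3 : ZMod 11) ^ (j : ℕ) := congrArg Subtype.val hij
    revert h1
    revert i j
    decide
  · intro x
    obtain ⟨i, hi⟩ := h x.1 x.2
    exact ⟨i, Subtype.ext hi⟩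

/-- the numbering of the indices -/
noncomputable def ee5 : Fin 5 ≃ Im 11 := Equiv.ofBijective e5 e5_bij

lemma charpoly_D (z : ℂ) : (z • Km gD).charpoly = X ^ 5 - C (z ^ 5) := by
  rw [← Matrix.charpoly_reindex ee5.symm, ← charpoly_cyc z]
  congr 1
  ext i j
  rw [Matrix.reindex_apply, Matrix.submatrix_apply, Equiv.symm_symm, Matrix.smul_apply, Km_gD]
  change z • (if (3 : ZMod 11) ^ (j : ℕ) = 3 * (3 : ZMod 11) ^ (i : ℕ) then (1 : ℂ) else 0) =
    if j = i + 1 then z else 0
  have h : ((3 : ZMod 11) ^ (j : ℕ) = 3 * (3 : ZMod 11) ^ (i : ℕ)) ↔ j = i + 1 := by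
    revert i j
    decide
  simp only [h]
  split_ifs <;> simp

end Diag

section Invo

lemma sum_qr {A : ZMod 11} (hA : A ≠ 0) :
    ∑ x : Im 11, ee 11 (A * (x : ZMod 11) ^ 2) = (ch 11 A * gs 11 - 1) / 2 := by
  have h1 := sum_split h11 (fun x : ZMod 11 => ee 11 (A * x ^ 2))
  rw [sum_scaled (by norm_num) hA] at h1
  rw [sum_Im (fun x : ZMod 11 => ee 11 (A * x ^ 2))]
  simp only [neg_sq] at h1
  rw [sum_add_distrib] at h1
  have h0 : ee 11 (A * (0 : ZMod 11) ^ 2) = 1 := by
    rw [zero_pow two_ne_zero, mul_zero, AddChar.map_zero_eq_one]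
  rw [h0] at h1
  linear_combination (-1 / 2 : ℂ) * h1

lemma trace_B : (Km gB).trace = 1 := by
  have e : ∀ a b : ZMod 11, KK gB a b = (gs 11)⁻¹ * ee 11 (5 * (a * b)) := by
    intro a b
    unfold KK kk
    have e00 : gB 0 0 = 0 := by simp [gB]
    have e10 : gB 1 0 = 4 := by simp [gB]
    have e11 : gB 1 1 = 0 := by simp [gB]
    have h4 : (4 : ZMod 11) ≠ 0 := by decide
    rw [e10, if_neg h4, e00, e11, ch4, one_mul]
    congr 2
    rw [div_eq_iff h4]
    have h22 : (22 : ZMod 11) = 0 := by decide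
    linear_combination -(a * b) * h22
  have h1 : (Km gB).trace = ∑ x : Im 11, ((gs 11)⁻¹ * ee 11 (5 * (x : ZMod 11) ^ 2) -
      (gs 11)⁻¹ * ee 11 (6 * (x : ZMod 11) ^ 2)) := by
    unfold Matrix.trace
    refine sum_congr rfl fun x _ => ?_
    rw [Matrix.diag_apply]
    unfold Km
    have h11 : (11 : ZMod 11) = 0 := by decide
    have e1 : 5 * ((x : ZMod 11) * x) = 5 * (x : ZMod 11) ^ 2 := by ring
    have e2 : 5 * ((x : ZMod 11) * -x) = 6 * (x : ZMod 11) ^ 2 := by
      linear_combination -((x : ZMod 11) ^ 2) * h11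
    rw [Matrix.of_apply, e, e, e1, e2]
  rw [h1, sum_sub_distrib, ← mul_sum, ← mul_sum, sum_qr (by decide), sum_qr (by decide), ch5, ch6]
  have hg : gs 11 ≠ 0 := gs_ne (by norm_num)
  field_simp
  ring

lemma card_Im : Fintype.card (Im 11) = 5 := by
  rw [← Fintype.card_congr ee5, Fintype.card_fin]

lemma charpoly_B : (Km gB).charpoly =
    (({1, 1, 1, -1, -1} : Multiset ℂ).map fun r => X - C r).prod := by
  refine charpoly_inv ?_ card_Im trace_B
  rw [← Km_mul h11, gB_sq, Km_neg_one h11]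

end Invo

end Pool.Agent.Q59.FF
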